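import Mathlib

/-!
# A graph of diameter 24 with neighbor-locating chromatic number 4

The path on 25 vertices has neighbor-locating chromatic number 5.  Adding one vertex adjacent to
three consecutive vertices of this path gives a graph of diameter 24 with neighbor-locating
chromatic number 4.
-/

set_option autoImplicit false

namespace Pool.Agent.Results.MP_fdbc88_co.DiamTwentyFour

open SimpleGraph

/-- A proper colouring `C` is neighbor-locating if any two distinct vertices of the same colour
have different sets of colours in their neighbourhoods. -/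
def IsNeighborLocating {V : Type} (G : SimpleGraph V) {k : ℕ} (C : G.Coloring (Fin k)) : Prop :=
  ∀ u v : V, u ≠ v → C u = C v → C '' G.neighborSet u ≠ C '' G.neighborSet v

/-- The neighbor-locating chromatic number: the least `k` such that `G` has a neighbor-locating
proper colouring with `k` colours. -/
noncomputable def chiNL {V : Type} (G : SimpleGraph V) : ℕ :=
  sInf {k : ℕ | ∃ C : G.Coloring (Fin k), IsNeighborLocating G C}

/-! ## The graph -/

/-- Half of the adjacency relation of the graph: the path `0 - 1 - ... - 24`, and the vertex `25`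
adjacent to `14`, `15` and `16`. -/
def r (i j : Fin 26) : Prop :=
  (i.val + 1 = j.val ∧ j.val ≤ 24) ∨ (j.val = 25 ∧ (i.val = 14 ∨ i.val = 15 ∨ i.val = 16))

instance : DecidableRel r := fun _ _ => by unfold r; infer_instance

/-- The graph: a path on 25 vertices and a further vertex adjacent to three consecutive vertices of
the path. -/
def H : SimpleGraph (Fin 26) where
  Adj i j := r i j ∨ r j i
  symm := ⟨fun _ _ h => h.symm⟩
  loopless := ⟨fun i h => by
    rcases h with h | h <;> rcases h with h | h <;> omega⟩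

instance : DecidableRel H.Adj := fun _ _ => by unfold H; infer_instance

/-- The neighbor-locating colouring with 4 colours. -/
def colH : Fin 26 → Fin 4 :=
  ![0, 1, 2, 0, 2, 3, 2, 3, 1, 3, 0, 1, 3, 1, 2, 0, 1, 2, 3, 0, 3, 0, 2, 0, 1, 3]

theorem colH_proper : ∀ i j : Fin 26, H.Adj i j → colH i ≠ colH j := by
  decide +kernel

theorem colH_nl : ∀ u v : Fin 26, u ≠ v → colH u = colH v →
    ¬ ∀ a : Fin 4, (∃ w, H.Adj u w ∧ colH w = a) ↔ (∃ w, H.Adj v w ∧ colH w = a) := by
  decide +kernel

/-- The neighbor-locating colouring of the path on 25 vertices with 5 colours. -/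
def colP : Fin 25 → Fin 5 :=
  ![0, 1, 2, 0, 2, 0, 3, 0, 1, 3, 0, 3, 2, 3, 2, 1, 2, 1, 3, 1, 3, 2, 0, 1, 4]

instance : DecidableRel (pathGraph 25).Adj := fun i j =>
  decidable_of_iff _ (pathGraph_adj).symm

theorem colP_proper : ∀ i j : Fin 25, (pathGraph 25).Adj i j → colP i ≠ colP j := by
  decide +kernel

theorem colP_nl : ∀ u v : Fin 25, u ≠ v → colP u = colP v →
    ¬ ∀ a : Fin 5, (∃ w, (pathGraph 25).Adj u w ∧ colP w = a) ↔
      (∃ w, (pathGraph 25).Adj v w ∧ colP w = a) := by
  decide +kernel

/-! ## General facts -/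

theorem image_ne {V : Type} {G : SimpleGraph V} {k : ℕ} {c : V → Fin k} {u v : V}
    (h : ¬ ∀ a : Fin k, (∃ w, G.Adj u w ∧ c w = a) ↔ (∃ w, G.Adj v w ∧ c w = a)) :
    c '' G.neighborSet u ≠ c '' G.neighborSet v := by
  intro e
  apply h
  intro a
  have := Set.ext_iff.1 e a
  simpa [Set.mem_image, SimpleGraph.mem_neighborSet] using this

/-- More colours do not hurt. -/
theorem mono {V : Type} {G : SimpleGraph V} {k m : ℕ} (hkm : k ≤ m)
    (h : ∃ C : G.Coloring (Fin k), IsNeighborLocating G C) :
    ∃ C : G.Coloring (Fin m), IsNeighborLocating G C := by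
  obtain ⟨C, hC⟩ := h
  have hinj : Function.Injective (Fin.castLE hkm) := Fin.castLE_injective hkm
  refine ⟨SimpleGraph.Coloring.mk (fun v => Fin.castLE hkm (C v)) ?_, ?_⟩
  · intro v w hvw e
    exact C.valid hvw (hinj e)
  · intro u v huv e
    have e' : C u = C v := hinj e
    intro e2
    apply hC u v huv e'
    have e3 : (Fin.castLE hkm) '' (C '' G.neighborSet u)
        = (Fin.castLE hkm) '' (C '' G.neighborSet v) := by
      rw [← Set.image_comp, ← Set.image_comp]
      exact e2
    exact (Set.image_injective.2 hinj) e3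

/-- Pigeonhole bound: every neighbor-locating colouring injects the vertices into the pairs
(colour, set of colours of the neighbours). -/
theorem not_exists_of_card {V : Type} [Fintype V] {G : SimpleGraph V} {k : ℕ}
    (T : Finset (Fin k × Finset (Fin k)))
    (hT : ∀ (C : G.Coloring (Fin k)) (u : V) (S : Finset (Fin k)),
      (S : Set (Fin k)) = C '' G.neighborSet u → (C u, S) ∈ T)
    (hcard : T.card < Fintype.card V) :
    ¬ ∃ C : G.Coloring (Fin k), IsNeighborLocating G C := by
  classical
  rintro ⟨C, hC⟩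
  let f : V → Fin k × Finset (Fin k) := fun u => (C u, (C '' G.neighborSet u).toFinset)
  have hmaps : ∀ u ∈ (Finset.univ : Finset V), f u ∈ T := by
    intro u _
    exact hT C u _ (by simp)
  obtain ⟨u, _, v, _, huv, hf⟩ :=
    Finset.exists_ne_map_eq_of_card_lt_of_maps_to (s := Finset.univ) (t := T) hcard hmaps
  simp only [f, Prod.mk.injEq] at hf
  apply hC u v huv hf.1
  have := congrArg (fun S : Finset (Fin k) => (S : Set (Fin k))) hf.2
  simpa using this

/-! ## The diameter -/

theorem adj_succ (i : ℕ) (hi : i + 1 ≤ 24) :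
    H.Adj ⟨i, by omega⟩ ⟨i + 1, by omega⟩ := by
  left; left; exact ⟨rfl, hi⟩

theorem walk_up (i n : ℕ) (h : i + n ≤ 24) :
    ∃ p : H.Walk ⟨i, by omega⟩ ⟨i + n, by omega⟩, p.length = n := by
  induction n with
  | zero => exact ⟨Walk.nil, rfl⟩
  | succ n ih =>
    obtain ⟨p, hp⟩ := ih (by omega)
    refine ⟨p.concat (adj_succ (i + n) (by omega)), ?_⟩
    rw [Walk.length_concat, hp]

theorem walk_path (i j : ℕ) (hi : i ≤ 24) (hj : j ≤ 24) :
    ∃ p : H.Walk ⟨i, by omega⟩ ⟨j, by omega⟩, p.length = (i - j) + (j - i) := by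
  rcases le_total i j with h | h
  · obtain ⟨n, rfl⟩ := Nat.exists_eq_add_of_le h
    obtain ⟨p, hp⟩ := walk_up i n hj
    exact ⟨p, by omega⟩
  · obtain ⟨n, rfl⟩ := Nat.exists_eq_add_of_le h
    obtain ⟨p, hp⟩ := walk_up j n hi
    exact ⟨p.reverse, by rw [Walk.length_reverse]; omega⟩

theorem walk_last (j : ℕ) (hj : j ≤ 24) :
    ∃ p : H.Walk ⟨25, by omega⟩ ⟨j, by omega⟩, p.length ≤ 24 := by
  obtain ⟨p, hp⟩ := walk_path 14 j (by omega) hj
  have h : H.Adj ⟨25, by omega⟩ ⟨14, by omega⟩ := by
    right; right; exact ⟨rfl, Or.inl rfl⟩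
  exact ⟨Walk.cons h p, by rw [Walk.length_cons]; omega⟩

theorem walk_any (u v : Fin 26) : ∃ p : H.Walk u v, p.length ≤ 24 := by
  obtain ⟨i, hi⟩ := u
  obtain ⟨j, hj⟩ := v
  rcases Nat.lt_or_ge 24 i with h1 | h1
  · have e1 : i = 25 := by omega
    subst e1
    rcases Nat.lt_or_ge 24 j with h2 | h2
    · have e2 : j = 25 := by omega
      subst e2
      exact ⟨Walk.nil, by simp⟩
    · exact walk_last j h2
  · rcases Nat.lt_or_ge 24 j with h2 | h2
    · have e2 : j = 25 := by omega
      subst e2
      obtain ⟨p, hp⟩ := walk_last i h1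
      exact ⟨p.reverse, by rw [Walk.length_reverse]; exact hp⟩
    · obtain ⟨p, hp⟩ := walk_path i j h1 h2
      exact ⟨p, by omega⟩

theorem H_connected : H.Connected := by
  have : Nonempty (Fin 26) := ⟨0⟩
  refine ⟨fun u v => ?_⟩
  obtain ⟨p, _⟩ := walk_any u v
  exact ⟨p⟩

/-- The level of a vertex. -/
def lev (i : Fin 26) : ℕ := if i.val = 25 then 15 else i.val

theorem lev_adj : ∀ i j : Fin 26, H.Adj i j → lev j ≤ lev i + 1 := by
  decide +kernel

theorem lev_walk {u v : Fin 26} (p : H.Walk u v) : lev v ≤ lev u + p.length := by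
  induction p with
  | nil => simp
  | cons h p ih =>
    have := lev_adj _ _ h
    rw [Walk.length_cons]
    omega

theorem H_ediam : H.ediam = 24 := by
  apply le_antisymm
  · apply SimpleGraph.ediam_le_of_edist_le
    intro u v
    obtain ⟨p, hp⟩ := walk_any u v
    calc H.edist u v ≤ p.length := SimpleGraph.edist_le p
      _ ≤ 24 := by exact_mod_cast hp
  · have h1 : H.edist (0 : Fin 26) (24 : Fin 26) ≤ H.ediam := SimpleGraph.edist_le_ediam
    refine le_trans ?_ h1
    obtain ⟨p, hp⟩ := (H_connected.preconnected 0 24).exists_walk_length_eq_edist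
    rw [← hp]
    have := lev_walk p
    have e0 : lev (0 : Fin 26) = 0 := by decide
    have e24 : lev (24 : Fin 26) = 24 := by decide
    rw [e0, e24] at this
    have h2 : 24 ≤ p.length := by omega
    exact_mod_cast h2

theorem H_diam : H.diam = 24 := by
  unfold SimpleGraph.diam
  rw [H_ediam]
  rfl

/-! ## The two chromatic numbers -/

theorem H_four : ∃ C : H.Coloring (Fin 4), IsNeighborLocating H C := by
  refine ⟨SimpleGraph.Coloring.mk colH (fun {v w} h => colH_proper v w h), ?_⟩
  intro u v huv e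
  exact image_ne (colH_nl u v huv e)

theorem H_not_three : ¬ ∃ C : H.Coloring (Fin 3), IsNeighborLocating H C := by
  apply not_exists_of_card (Finset.univ.filter (fun x : Fin 3 × Finset (Fin 3) =>
    x.1 ∉ x.2 ∧ x.2.Nonempty))
  · intro C u S hS
    rw [Finset.mem_filter]
    refine ⟨Finset.mem_univ _, ?_, ?_⟩
    · intro h
      have h' : C u ∈ (S : Set (Fin 3)) := h
      rw [hS] at h'
      obtain ⟨w, hw, e⟩ := h'
      exact C.valid hw e.symm
    · have hn : ∀ u : Fin 26, ∃ w, H.Adj u w := by decide +kernel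
      obtain ⟨w, hw⟩ := hn u
      have : C w ∈ (S : Set (Fin 3)) := by
        rw [hS]; exact ⟨w, hw, rfl⟩
      exact ⟨C w, this⟩
  · rw [Fintype.card_fin]
    have : (Finset.univ.filter (fun x : Fin 3 × Finset (Fin 3) =>
      x.1 ∉ x.2 ∧ x.2.Nonempty)).card = 9 := by decide +kernel
    rw [this]
    norm_num

theorem P_five : ∃ C : (pathGraph 25).Coloring (Fin 5),
    IsNeighborLocating (pathGraph 25) C := by
  refine ⟨SimpleGraph.Coloring.mk colP (fun {v w} h => colP_proper v w h), ?_⟩
  intro u v huv e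
  exact image_ne (colP_nl u v huv e)

theorem P_not_four : ¬ ∃ C : (pathGraph 25).Coloring (Fin 4),
    IsNeighborLocating (pathGraph 25) C := by
  apply not_exists_of_card (Finset.univ.filter (fun x : Fin 4 × Finset (Fin 4) =>
    x.1 ∉ x.2 ∧ x.2.Nonempty ∧ x.2.card ≤ 2))
  · intro C u S hS
    rw [Finset.mem_filter]
    refine ⟨Finset.mem_univ _, ?_, ?_, ?_⟩
    · intro h
      have h' : C u ∈ (S : Set (Fin 4)) := h
      rw [hS] at h'
      obtain ⟨w, hw, e⟩ := h'
      exact C.valid hw e.symm
    · have hn : ∀ u : Fin 25, ∃ w, (pathGraph 25).Adj u w := by decide +kernel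
      obtain ⟨w, hw⟩ := hn u
      have : C w ∈ (S : Set (Fin 4)) := by
        rw [hS]; exact ⟨w, hw, rfl⟩
      exact ⟨C w, this⟩
    · have hn : ∀ u : Fin 25,
          (Finset.univ.filter (fun w => (pathGraph 25).Adj u w)).card ≤ 2 := by decide +kernel
      have hsub : S ⊆ (Finset.univ.filter (fun w => (pathGraph 25).Adj u w)).image C := by
        intro a ha
        have h' : a ∈ (S : Set (Fin 4)) := ha
        rw [hS] at h'
        obtain ⟨w, hw, e⟩ := h'
        exact Finset.mem_image.2 ⟨w, Finset.mem_filter.2 ⟨Finset.mem_univ _, hw⟩, e⟩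
      exact (Finset.card_le_card hsub).trans (Finset.card_image_le.trans (hn u))
  · rw [Fintype.card_fin]
    have : (Finset.univ.filter (fun x : Fin 4 × Finset (Fin 4) =>
      x.1 ∉ x.2 ∧ x.2.Nonempty ∧ x.2.card ≤ 2)).card = 24 := by decide +kernel
    rw [this]
    norm_num

theorem chiNL_eq {V : Type} {G : SimpleGraph V} {k : ℕ}
    (h1 : ∃ C : G.Coloring (Fin (k + 1)), IsNeighborLocating G C)
    (h2 : ¬ ∃ C : G.Coloring (Fin k), IsNeighborLocating G C) : chiNL G = k + 1 := by
  unfold chiNL
  apply le_antisymm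
  · exact Nat.sInf_le h1
  · apply le_csInf ⟨k + 1, h1⟩
    intro m hm
    by_contra hlt
    exact h2 (mono (by omega) hm)

/-- There is a connected graph `G` of diameter `d = 24` with
`chiNL G = 4 < 5 = chiNL (pathGraph (d + 1))`. -/
theorem result :
    ∃ G : SimpleGraph (Fin 26), G.Connected ∧ G.diam = 24 ∧
      chiNL G = 4 ∧ chiNL (pathGraph (24 + 1)) = 5 :=
  ⟨H, H_connected, H_diam, chiNL_eq H_four H_not_three, chiNL_eq P_five P_not_four⟩

end Pool.Agent.Results.MP_fdbc88_co.DiamTwentyFour
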